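import Pool.Agent.Helper8.Kak.DefsC
import Pool.Agent.Helper14.Kak.B1
import Pool.Agent.Helper69.Kak.B2a
import Pool.Agent.Helper57.Kak.B2b
import Pool.Agent.Helper57.Kak.B3

/-! Module B4 of MP_013a6c_an: `TT t` is an automorphism with the tower structure. -/

open MeasureTheory Set Topology Filter
open scoped symmDiff ENNReal ProbabilityTheory

namespace KakC

/-- two points with the same `w t k` and the same coordinates above `k` are equal -/
theorem B4_ext {t : ℕ → ℕ} {k : ℕ} {ξ η : PP} (hw : w t k ξ = w t k η)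
    (ha : ∀ j, k < j → ξ j = η j) : ξ = η := by
  funext j
  rcases le_or_gt j k with hj | hj
  · exact w_inj hw j hj
  · exact ha j hj

theorem B4_mem_succ {t : ℕ → ℕ} {k : ℕ} {ξ : PP} (hk : (w t k ξ).2 + 1 < h k) :
    ((w t k ξ).1, (w t k ξ).2 + 1) ∈ Om k := ⟨(w_mem t k ξ).1, hk⟩

theorem B4_mem_pred (t : ℕ → ℕ) (k : ℕ) (ξ : PP) :
    ((w t k ξ).1, (w t k ξ).2 - 1) ∈ Om k :=
  ⟨(w_mem t k ξ).1, lt_of_le_of_lt (Nat.sub_le _ _) (w_mem t k ξ).2⟩

theorem B4_up_one {t : ℕ → ℕ} {k c : ℕ} {ξ η : PP} (ha : ∀ j, k < j → η j = ξ j)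
    (hw : w t k η = ((w t k ξ).1, c)) :
    w t (k + 1) η = ((w t (k + 1) ξ).1,
      pos k (t k) (ξ (k + 1)).1 (ξ k).1 (ξ (k + 1)).2 * h k + c) := by
  have h1 : η (k + 1) = ξ (k + 1) := ha (k + 1) (Nat.lt_succ_self k)
  have h2 : ((η k).1 : ℕ) = (ξ k).1 := by
    have := congrArg Prod.fst hw
    simp only [w_fst] at this
    exact this
  simp only [w, h1, h2, hw]

theorem B4_shift {t : ℕ → ℕ} {k : ℕ} {ξ : PP} (hk : (w t k ξ).2 + 1 < h k) (d : ℕ) :
    w t (k + d) (repl t k ((w t k ξ).1, (w t k ξ).2 + 1) ξ) =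
      ((w t (k + d) ξ).1, (w t (k + d) ξ).2 + 1) := by
  induction d with
  | zero => exact w_repl t (B4_mem_succ hk) ξ
  | succ d ih =>
    have h1 := B4_up_one (t := t) (k := k + d) (ξ := ξ)
      (η := repl t k ((w t k ξ).1, (w t k ξ).2 + 1) ξ) (c := (w t (k + d) ξ).2 + 1)
      (fun j hj => repl_above t (by omega) _ _) ih
    rw [← Nat.add_assoc k d 1, h1]
    simp only [w]
    rfl

theorem B4_shift_inv {t : ℕ → ℕ} {k : ℕ} {ξ : PP} (hk : 0 < (w t k ξ).2) (d : ℕ) :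
    0 < (w t (k + d) ξ).2 ∧ w t (k + d) (repl t k ((w t k ξ).1, (w t k ξ).2 - 1) ξ) =
      ((w t (k + d) ξ).1, (w t (k + d) ξ).2 - 1) := by
  induction d with
  | zero =>
    exact ⟨hk, w_repl t (B4_mem_pred t k ξ) ξ⟩
  | succ d ih =>
    have h1 := B4_up_one (t := t) (k := k + d) (ξ := ξ)
      (η := repl t k ((w t k ξ).1, (w t k ξ).2 - 1) ξ) (c := (w t (k + d) ξ).2 - 1)
      (fun j hj => repl_above t (by omega) _ _) ih.2
    have h2 : (w t (k + d + 1) ξ).2 = pos (k + d) (t (k + d)) (ξ (k + d + 1)).1 (ξ (k + d)).1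
        (ξ (k + d + 1)).2 * h (k + d) + (w t (k + d) ξ).2 := rfl
    have h3 := ih.1
    rw [← Nat.add_assoc k d 1]
    constructor
    · rw [h2]; omega
    · rw [h1, h2]
      congr 1
      omega

theorem TT_eq (t : ℕ → ℕ) {k : ℕ} {ξ : PP} (hk : (w t k ξ).2 + 1 < h k) :
    TT t ξ = repl t k ((w t k ξ).1, (w t k ξ).2 + 1) ξ := by
  classical
  have hex : ∃ k, (w t k ξ).2 + 1 < h k := ⟨k, hk⟩
  have h1 : TT t ξ = repl t (Nat.find hex) ((w t (Nat.find hex) ξ).1,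
      (w t (Nat.find hex) ξ).2 + 1) ξ := by
    unfold TT
    rw [dif_pos hex]
  have hle : Nat.find hex ≤ k := Nat.find_min' hex hk
  have hf := Nat.find_spec hex
  obtain ⟨d, hd⟩ := Nat.exists_eq_add_of_le hle
  rw [h1]
  generalize Nat.find hex = k' at *
  have h2 := B4_shift hf d
  rw [← hd] at h2
  apply B4_ext (t := t) (k := k)
  · rw [h2, w_repl t (B4_mem_succ hk) ξ]
  · intro j hj
    rw [repl_above t (by omega), repl_above t hj]

theorem B4_inv_eq (t : ℕ → ℕ) {k : ℕ} {ξ : PP} (hk : 0 < (w t k ξ).2) :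
    TTinv t ξ = repl t k ((w t k ξ).1, (w t k ξ).2 - 1) ξ := by
  classical
  have hex : ∃ k, 0 < (w t k ξ).2 := ⟨k, hk⟩
  have h1 : TTinv t ξ = repl t (Nat.find hex) ((w t (Nat.find hex) ξ).1,
      (w t (Nat.find hex) ξ).2 - 1) ξ := by
    unfold TTinv
    rw [dif_pos hex]
  have hle : Nat.find hex ≤ k := Nat.find_min' hex hk
  have hf := Nat.find_spec hex
  obtain ⟨d, hd⟩ := Nat.exists_eq_add_of_le hle
  rw [h1]
  generalize Nat.find hex = k' at *
  have h2 := (B4_shift_inv hf d).2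
  rw [← hd] at h2
  apply B4_ext (t := t) (k := k)
  · rw [h2, w_repl t (B4_mem_pred t k ξ) ξ]
  · intro j hj
    rw [repl_above t (by omega), repl_above t hj]

theorem B4_meas_p (t : ℕ → ℕ) (k : ℕ) : MeasurableSet {ξ : PP | (w t k ξ).2 + 1 < h k} :=
  (measurable_w t k) (t := {ω : ℕ × ℕ | ω.2 + 1 < h k}) (MeasurableSet.of_discrete)

theorem B4_meas_q (t : ℕ → ℕ) (k : ℕ) : MeasurableSet {ξ : PP | 0 < (w t k ξ).2} :=
  (measurable_w t k) (t := {ω : ℕ × ℕ | 0 < ω.2}) (MeasurableSet.of_discrete)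

theorem B4_meas_R (t : ℕ → ℕ) (k : ℕ) (e : ℕ × ℕ → ℕ × ℕ) :
    Measurable (fun ξ : PP => repl t k (e (w t k ξ)) ξ) :=
  measurable_repl t k ((measurable_of_countable e).comp (measurable_w t k)) measurable_id

theorem measurable_TT (t : ℕ → ℕ) : Measurable (TT t) := by
  intro S hS
  have h1 : TT t ⁻¹' S = (⋃ k, {ξ : PP | (w t k ξ).2 + 1 < h k} ∩
      (fun ξ : PP => repl t k ((w t k ξ).1, (w t k ξ).2 + 1) ξ) ⁻¹' S) ∪
      ((⋃ k, {ξ : PP | (w t k ξ).2 + 1 < h k})ᶜ ∩ S) := by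
    ext ξ
    simp only [mem_preimage, mem_union, mem_iUnion, mem_inter_iff, mem_ofPred_eq, mem_compl_iff]
    constructor
    · intro hξ
      by_cases hex : ∃ k, (w t k ξ).2 + 1 < h k
      · obtain ⟨k, hk⟩ := hex
        left
        exact ⟨k, hk, by rw [← TT_eq t hk]; exact hξ⟩
      · right
        refine ⟨hex, ?_⟩
        unfold TT at hξ
        rwa [dif_neg hex] at hξ
    · rintro (⟨k, hk, hS'⟩ | ⟨hex, hS'⟩)
      · rw [TT_eq t hk]; exact hS'
      · unfold TT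
        rwa [dif_neg hex]
  rw [h1]
  refine (MeasurableSet.iUnion fun k => (B4_meas_p t k).inter ?_).union
    ((MeasurableSet.iUnion fun k => B4_meas_p t k).compl.inter hS)
  exact (B4_meas_R t k (fun ω => (ω.1, ω.2 + 1))) hS

theorem B4_measurable_inv (t : ℕ → ℕ) : Measurable (TTinv t) := by
  intro S hS
  have h1 : TTinv t ⁻¹' S = (⋃ k, {ξ : PP | 0 < (w t k ξ).2} ∩
      (fun ξ : PP => repl t k ((w t k ξ).1, (w t k ξ).2 - 1) ξ) ⁻¹' S) ∪
      ((⋃ k, {ξ : PP | 0 < (w t k ξ).2})ᶜ ∩ S) := by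
    ext ξ
    simp only [mem_preimage, mem_union, mem_iUnion, mem_inter_iff, mem_ofPred_eq, mem_compl_iff]
    constructor
    · intro hξ
      by_cases hex : ∃ k, 0 < (w t k ξ).2
      · obtain ⟨k, hk⟩ := hex
        left
        exact ⟨k, hk, by rw [← B4_inv_eq t hk]; exact hξ⟩
      · right
        refine ⟨hex, ?_⟩
        unfold TTinv at hξ
        rwa [dif_neg hex] at hξ
    · rintro (⟨k, hk, hS'⟩ | ⟨hex, hS'⟩)
      · rw [B4_inv_eq t hk]; exact hS'
      · unfold TTinv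
        rwa [dif_neg hex]
  rw [h1]
  refine (MeasurableSet.iUnion fun k => (B4_meas_q t k).inter ?_).union
    ((MeasurableSet.iUnion fun k => B4_meas_q t k).compl.inter hS)
  exact (B4_meas_R t k (fun ω => (ω.1, ω.2 - 1))) hS

theorem B4_level (t : ℕ → ℕ) (k c : ℕ) :
    lam {ξ | (w t k ξ).2 = c} ≤ ((h k : ℕ) : ℝ≥0∞)⁻¹ := by
  have hNk : ((N k : ℕ) : ℝ≥0∞) ≠ 0 := by exact_mod_cast (N_pos k).ne'
  have hNt : ((N k : ℕ) : ℝ≥0∞) ≠ ∞ := ENNReal.natCast_ne_top _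
  have hsub : {ξ : PP | (w t k ξ).2 = c} ⊆ ⋃ i ∈ Finset.range (N k), w t k ⁻¹' {(i, c)} := by
    intro ξ hξ
    simp only [mem_iUnion]
    exact ⟨(w t k ξ).1, Finset.mem_range.2 (w_mem t k ξ).1, Prod.ext rfl hξ⟩
  have hb : ∀ i ∈ Finset.range (N k), lam (w t k ⁻¹' {(i, c)}) ≤
      ((N k * h k : ℕ) : ℝ≥0∞)⁻¹ := by
    intro i hi
    rcases lt_or_ge c (h k) with hc | hc
    · exact (law_w t (Finset.mem_range.1 hi) hc).le
    · have : w t k ⁻¹' {(i, c)} = ∅ := by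
        ext ξ
        simp only [mem_preimage, mem_singleton_iff, mem_empty_iff_false, iff_false]
        intro hcon
        have := (w_mem t k ξ).2
        rw [hcon] at this
        exact absurd this (not_lt.2 hc)
      rw [this, measure_empty]
      exact zero_le
  calc lam {ξ | (w t k ξ).2 = c} ≤ lam (⋃ i ∈ Finset.range (N k), w t k ⁻¹' {(i, c)}) :=
        measure_mono hsub
    _ ≤ ∑ i ∈ Finset.range (N k), lam (w t k ⁻¹' {(i, c)}) := measure_biUnion_finset_le _ _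
    _ ≤ ∑ i ∈ Finset.range (N k), ((N k * h k : ℕ) : ℝ≥0∞)⁻¹ := Finset.sum_le_sum hb
    _ = (N k : ℝ≥0∞) * ((N k * h k : ℕ) : ℝ≥0∞)⁻¹ := by
        rw [Finset.sum_const, Finset.card_range, nsmul_eq_mul]
    _ = ((h k : ℕ) : ℝ≥0∞)⁻¹ := by
        push_cast
        rw [ENNReal.mul_inv (Or.inl hNk) (Or.inl hNt), ← mul_assoc, ENNReal.mul_inv_cancel hNk hNt,
          one_mul]

theorem lam_top (t : ℕ → ℕ) (k : ℕ) :
    lam {ξ | ¬ (w t k ξ).2 + 1 < h k} ≤ ((h k : ℕ) : ℝ≥0∞)⁻¹ := by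
  refine le_trans (measure_mono ?_) (B4_level t k (h k - 1))
  intro ξ hξ
  have h1 := (w_mem t k ξ).2
  simp only [mem_ofPred_eq] at hξ ⊢
  omega

theorem tendsto_h : Tendsto h atTop atTop := by
  apply StrictMono.tendsto_atTop
  apply strictMono_nat_of_lt_succ
  intro k
  have h1 : 2 ≤ L k := by
    have h2 : 2 ≤ N k := by
      unfold N
      calc 2 = 2 ^ 1 := rfl
        _ ≤ 2 ^ ((k + 3) ^ 2) := Nat.pow_le_pow_right (by norm_num) (Nat.pos_of_ne_zero (by positivity))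
    have h3 := A_pos k
    unfold L
    nlinarith
  have h4 := h_pos k
  show h k < L k * h k
  nlinarith

theorem B4_tendsto_inv : Tendsto (fun k => ((h k : ℕ) : ℝ≥0∞)⁻¹) atTop (𝓝 0) :=
  ENNReal.tendsto_inv_nat_nhds_zero.comp tendsto_h

theorem B4_ae_top (t : ℕ → ℕ) : ∀ᵐ ξ ∂lam, ∃ k, (w t k ξ).2 + 1 < h k := by
  rw [ae_iff]
  apply le_antisymm _ zero_le
  apply ge_of_tendsto' B4_tendsto_inv
  intro k
  refine le_trans (measure_mono ?_) (lam_top t k)
  intro ξ hξ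
  simp only [mem_ofPred_eq, not_exists] at hξ ⊢
  exact hξ k

theorem B4_ae_bot (t : ℕ → ℕ) : ∀ᵐ ξ ∂lam, ∃ k, 0 < (w t k ξ).2 := by
  rw [ae_iff]
  apply le_antisymm _ zero_le
  apply ge_of_tendsto' B4_tendsto_inv
  intro k
  refine le_trans (measure_mono ?_) (B4_level t k 0)
  intro ξ hξ
  simp only [mem_ofPred_eq, not_exists] at hξ ⊢
  have := hξ k
  omega

/-- rotation of the levels -/
def B4_rot (k : ℕ) (ω : ℕ × ℕ) : ℕ × ℕ := (ω.1, (ω.2 + 1) % h k)

theorem B4_rot_bij (k : ℕ) : Set.BijOn (B4_rot k) (Om k) (Om k) := by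
  have hh := h_pos k
  refine ⟨fun ω hω => ⟨hω.1, Nat.mod_lt _ hh⟩, ?_, ?_⟩
  · rintro ⟨i, l⟩ h1 ⟨i', l'⟩ h2 heq
    simp only [B4_rot, Prod.mk.injEq] at heq
    have hl : l < h k := h1.2
    have hl' : l' < h k := h2.2
    obtain ⟨e1, e2⟩ := heq
    refine Prod.ext e1 ?_
    simp only
    have h3 : ∀ m, m < h k → (m + 1) % h k = if m + 1 < h k then m + 1 else 0 := by
      intro m hm
      split_ifs with hc
      · exact Nat.mod_eq_of_lt hc
      · have : m + 1 = h k := by omega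
        rw [this, Nat.mod_self]
    rw [h3 l hl, h3 l' hl'] at e2
    split_ifs at e2 <;> omega
  · rintro ⟨i, l⟩ hω
    have hl : l < h k := hω.2
    have hi : i < N k := hω.1
    rcases Nat.eq_zero_or_pos l with h0 | h0
    · refine ⟨(i, h k - 1), ⟨hi, ?_⟩, ?_⟩
      · show h k - 1 < h k
        omega
      · show (i, (h k - 1 + 1) % h k) = (i, l)
        rw [Nat.sub_add_cancel hh, Nat.mod_self, h0]
    · refine ⟨(i, l - 1), ⟨hi, ?_⟩, ?_⟩
      · show l - 1 < h k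
        omega
      · show (i, (l - 1 + 1) % h k) = (i, l)
        rw [Nat.sub_add_cancel h0, Nat.mod_eq_of_lt hl]

theorem B4_mp (t : ℕ → ℕ) : MeasurePreserving (TT t) lam lam := by
  have := lam_prob
  refine mp_limit (R := fun k ξ => repl t k (B4_rot k (w t k ξ)) ξ)
    (fun k => mp_repl t t k (B4_rot_bij k)) (measurable_TT t)
    (F := fun k => {ξ | (w t k ξ).2 + 1 < h k}) ?_ ?_
  · apply tendsto_of_tendsto_of_tendsto_of_le_of_le tendsto_const_nhds B4_tendsto_inv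
    · intro k; exact zero_le
    · intro k; exact lam_top t k
  · intro k ξ hξ
    rw [TT_eq t hξ]
    simp only [B4_rot]
    rw [Nat.mod_eq_of_lt hξ]

theorem B4_step (t : ℕ → ℕ) (k : ℕ) (ξ : PP) (hk : (w t k ξ).2 + 1 < h k) :
    w t k (TT t ξ) = ((w t k ξ).1, (w t k ξ).2 + 1) := by
  rw [TT_eq t hk, w_repl t (B4_mem_succ hk) ξ]

theorem TT_tower (t : ℕ → ℕ) : Tower t lam (TT t) (w t) where
  mp := B4_mp t
  meas := measurable_w t
  lt1 := fun k ξ => (w_mem t k ξ).1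
  lt2 := fun k ξ => (w_mem t k ξ).2
  proj := fun k ξ => proj_w t k ξ
  law := fun _ _ _ hi hl => law_w t hi hl
  step := fun k => Eventually.of_forall fun ξ hk => B4_step t k ξ hk
  gen := fun S hS ε hε => lam_gen t S hS ε hε

theorem B4_inv_TT (t : ℕ → ℕ) {k : ℕ} {ξ : PP} (hk : (w t k ξ).2 + 1 < h k) :
    TTinv t (TT t ξ) = ξ := by
  have h1 := B4_step t k ξ hk
  have h2 : 0 < (w t k (TT t ξ)).2 := by rw [h1]; exact Nat.succ_pos _
  rw [B4_inv_eq t h2, h1]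
  simp only [Nat.add_sub_cancel]
  apply B4_ext (t := t) (k := k)
  · exact w_repl t (w_mem t k ξ) _
  · intro j hj
    rw [repl_above t hj, TT_eq t hk, repl_above t hj]

theorem B4_TT_inv (t : ℕ → ℕ) {k : ℕ} {ξ : PP} (hk : 0 < (w t k ξ).2) :
    TT t (TTinv t ξ) = ξ := by
  have hm := w_mem t k ξ
  have h1 : w t k (TTinv t ξ) = ((w t k ξ).1, (w t k ξ).2 - 1) := by
    rw [B4_inv_eq t hk, w_repl t (B4_mem_pred t k ξ) ξ]
  have h2 : (w t k (TTinv t ξ)).2 + 1 < h k := by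
    rw [h1]
    have := hm.2
    simp only
    omega
  rw [TT_eq t h2, h1]
  simp only [Nat.sub_add_cancel hk]
  apply B4_ext (t := t) (k := k)
  · exact w_repl t (w_mem t k ξ) _
  · intro j hj
    rw [repl_above t hj, B4_inv_eq t hk, repl_above t hj]

theorem TT_aut (t : ℕ → ℕ) : IsAut lam (TT t) := by
  have hmp := B4_mp t
  have hinv : ∀ᵐ ξ ∂lam, TTinv t (TT t ξ) = ξ := by
    filter_upwards [B4_ae_top t] with ξ hξ
    obtain ⟨k, hk⟩ := hξ
    exact B4_inv_TT t hk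
  refine ⟨hmp, TTinv t, ?_, hinv, ?_⟩
  · refine ⟨B4_measurable_inv t, ?_⟩
    ext S hS
    rw [Measure.map_apply (B4_measurable_inv t) hS,
      ← hmp.measure_preimage (B4_measurable_inv t hS).nullMeasurableSet]
    apply measure_congr
    filter_upwards [hinv] with ξ hξ
    apply propext
    show TTinv t (TT t ξ) ∈ S ↔ ξ ∈ S
    rw [hξ]
  · filter_upwards [B4_ae_bot t] with ξ hξ
    obtain ⟨k, hk⟩ := hξ
    exact B4_TT_inv t hk

end KakC
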